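import Mathlib
import Pool.Agent.W644.GN.Degree

set_option autoImplicit false

noncomputable section
open scoped Classical

namespace Pool.Agent.Results.MP_b48dd4_gt.FlatVertices

/-- A geodesic net in the Euclidean plane (identified with the complex numbers): a finite graph
whose vertices are points of the plane and whose edges are straight segments of weight one. -/
structure GeodesicNet where
  /-- the vertices -/
  V : Finset ℂ
  /-- `Adj a b` means that the segment `ab` is an edge -/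
  Adj : ℂ → ℂ → Prop
  symm : ∀ a b, Adj a b → Adj b a
  /-- edges join two distinct vertices -/
  edge_ends : ∀ a b, Adj a b → a ∈ V ∧ b ∈ V ∧ a ≠ b
  /-- two distinct edges meet only at a common endpoint -/
  edges_meet : ∀ a b c d, Adj a b → Adj c d → s(a, b) ≠ s(c, d) →
    ∀ z ∈ segment ℝ a b, z ∈ segment ℝ c d → (z = a ∨ z = b) ∧ (z = c ∨ z = d)
  /-- no vertex lies in the interior of an edge -/
  no_vertex_inside : ∀ a b, Adj a b → ∀ c ∈ V, c ∉ openSegment ℝ a b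

namespace GeodesicNet

variable (G : GeodesicNet)

/-- the neighbours of `v` -/
def neighbors (v : ℂ) : Finset ℂ := G.V.filter (fun w => G.Adj v w)

/-- the imbalance vector: the sum of the unit vectors along the edges at `v` -/
def imb (v : ℂ) : ℂ := ∑ w ∈ G.neighbors v, (w - v) / (‖w - v‖ : ℂ)

/-- the total imbalance (balanced vertices contribute zero) -/
def totalImbalance : ℝ := ∑ v ∈ G.V, ‖G.imb v‖

/-- the balanced vertices -/
def balanced : Finset ℂ := G.V.filter (fun v => G.imb v = 0)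

/-- the unbalanced vertices -/
def unbalanced : Finset ℂ := G.V.filter (fun v => G.imb v ≠ 0)

/-- the convention: there are no isolated vertices, and every balanced vertex has degree at least
three -/
def Proper : Prop := (∀ v ∈ G.V, 1 ≤ (G.neighbors v).card) ∧
  ∀ v ∈ G.V, G.imb v = 0 → 3 ≤ (G.neighbors v).card

end GeodesicNet

/-- the absolute value of the sine of the angle at `v` between the segments `vw` and `vw'` -/
def absSin (v w w' : ℂ) : ℝ :=
  |((starRingEnd ℂ) (w - v) * (w' - v)).im| / (‖w - v‖ * ‖w' - v‖)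

/-- the `δ`-flat balanced vertices of even degree at least six: any two edges at `v` make an angle
whose sine is less than `δ` in absolute value -/
def GeodesicNet.flat (G : GeodesicNet) (δ : ℝ) : Finset ℂ :=
  G.V.filter (fun v => G.imb v = 0 ∧ Even (G.neighbors v).card ∧ 6 ≤ (G.neighbors v).card ∧
    ∀ w ∈ G.neighbors v, ∀ w' ∈ G.neighbors v, absSin v w w' < δ)

/-- the balanced vertices of odd degree or with two edges making an angle whose sine is at least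
`δ` in absolute value -/
def GeodesicNet.oddOrWide (G : GeodesicNet) (δ : ℝ) : Finset ℂ :=
  G.V.filter (fun v => G.imb v = 0 ∧ (Odd (G.neighbors v).card ∨
    ∃ w ∈ G.neighbors v, ∃ w' ∈ G.neighbors v, δ ≤ absSin v w w'))

/-- the balanced vertices of degree four -/
def GeodesicNet.crossings (G : GeodesicNet) : Finset ℂ :=
  G.V.filter (fun v => G.imb v = 0 ∧ (G.neighbors v).card = 4)

open Pool.Agent.W644.GN

theorem eq_of_re_im {ζ z z' : ℂ} (hζ : ζ ≠ 0) (h1 : (ζ * z).re = (ζ * z').re)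
    (h2 : (ζ * z).im = (ζ * z').im) : z = z' :=
  mul_left_cancel₀ hζ (Complex.ext h1 h2)

theorem re_comb (ζ a b : ℂ) (τ : ℝ) : (ζ * (((1 - τ : ℝ) : ℂ) * a + (τ : ℂ) * b)).re =
    (ζ * a).re + τ * ((ζ * b).re - (ζ * a).re) := by
  simp [Complex.mul_re, Complex.mul_im]; ring

theorem im_comb (ζ a b : ℂ) (τ : ℝ) : (ζ * (((1 - τ : ℝ) : ℂ) * a + (τ : ℂ) * b)).im =
    (ζ * a).im + τ * ((ζ * b).im - (ζ * a).im) := by
  simp [Complex.mul_re, Complex.mul_im]; ring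

theorem exists_generic (V : Finset ℂ) : ∃ ζ : ℂ, ‖ζ‖ = 1 ∧
    ∀ a ∈ V, ∀ b ∈ V, (ζ * a).im = (ζ * b).im → a = b := by
  have hfin : (⋃ p ∈ (V ×ˢ V : Finset (ℂ × ℂ)),
      {t : ℝ | p.1 ≠ p.2 ∧ (p.1 - p.2).im + t * (p.1 - p.2).re = 0}).Finite := by
    refine Set.Finite.biUnion (Finset.finite_toSet _) (fun p _ => ?_)
    refine Set.Subsingleton.finite ?_
    rintro t ⟨hne, ht⟩ t' ⟨-, ht'⟩
    have h : (t - t') * (p.1 - p.2).re = 0 := by linear_combination ht - ht'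
    rcases mul_eq_zero.1 h with h | h
    · linarith
    · exfalso
      apply hne
      rw [h] at ht
      have h2 : (p.1 - p.2).im = 0 := by linarith
      exact sub_eq_zero.1 (Complex.ext h h2)
  obtain ⟨t, ht⟩ := hfin.infinite_compl.nonempty
  set z : ℂ := 1 + (t : ℂ) * Complex.I with hz
  have hz0 : z ≠ 0 := by
    intro h
    have := congrArg Complex.re h
    simp [hz] at this
  have hn : 0 < ‖z‖ := norm_pos_iff.2 hz0
  refine ⟨(((‖z‖⁻¹ : ℝ)) : ℂ) * z, ?_, ?_⟩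
  · rw [norm_mul, Complex.norm_real, norm_inv, norm_norm]
    field_simp
  · intro a ha b hb hab
    by_contra hne
    apply ht
    simp only [Set.mem_iUnion]
    refine ⟨(a, b), Finset.mem_product.2 ⟨ha, hb⟩, hne, ?_⟩
    rw [mul_assoc, mul_assoc, Complex.im_ofReal_mul, Complex.im_ofReal_mul] at hab
    have h2 : (z * a).im = (z * b).im := mul_left_cancel₀ (inv_ne_zero hn.ne') hab
    simp only [hz, Complex.mul_im, Complex.add_re, Complex.add_im, Complex.one_re, Complex.one_im,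
      Complex.mul_re, Complex.ofReal_re, Complex.ofReal_im, Complex.I_re, Complex.I_im] at h2
    simp only [Complex.sub_im, Complex.sub_re]
    linarith

variable (G : GeodesicNet) (ζ : ℂ)

/-- the net in coordinates -/
def cfg (hζ : ζ ≠ 0) (hgen : ∀ a ∈ G.V, ∀ b ∈ G.V, (ζ * a).im = (ζ * b).im → a = b) :
    Cfg {v : ℂ // v ∈ G.V} where
  x v := (ζ * v.1).re
  y v := (ζ * v.1).im
  W a b := if G.Adj a.1 b.1 ∧ (ζ * a.1).im < (ζ * b.1).im then ‖b.1 - a.1‖⁻¹ else 0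
  y_inj a b h := Subtype.ext (hgen a.1 a.2 b.1 b.2 h)
  W_nonneg a b := by split_ifs <;> positivity
  W_up a b h := by
    by_contra h'
    exact h (if_neg (fun h2 => h' h2.2))
  no_inside a b v h h1 h2 := by
    intro hN
    have hadj : G.Adj a.1 b.1 := by
      by_contra h'
      exact h (if_neg (fun h2 => h' h2.1))
    have hd : 0 < (ζ * b.1).im - (ζ * a.1).im := by linarith
    refine G.no_vertex_inside a.1 b.1 hadj v.1 v.2 ?_
    set τ : ℝ := ((ζ * v.1).im - (ζ * a.1).im) / ((ζ * b.1).im - (ζ * a.1).im) with hτ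
    have hτ0 : 0 < τ := div_pos (by linarith) hd
    have hτ1 : τ < 1 := by rw [hτ, div_lt_one hd]; linarith
    have hτe : τ * ((ζ * b.1).im - (ζ * a.1).im) = (ζ * v.1).im - (ζ * a.1).im :=
      div_mul_cancel₀ _ hd.ne'
    refine ⟨1 - τ, τ, by linarith, hτ0, by ring, ?_⟩
    rw [Complex.real_smul, Complex.real_smul]
    refine eq_of_re_im hζ ?_ ?_
    · rw [re_comb]
      unfold N at hN
      have h3 : ((ζ * a.1).re + τ * ((ζ * b.1).re - (ζ * a.1).re) - (ζ * v.1).re) *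
          ((ζ * b.1).im - (ζ * a.1).im) = 0 := by
        linear_combination hN + ((ζ * b.1).re - (ζ * a.1).re) * hτe
      rcases mul_eq_zero.1 h3 with h4 | h4
      · linarith
      · exact absurd h4 hd.ne'
    · rw [im_comb, hτe]; ring
  no_cross a b c d h h' hne t h1 h2 h3 h4 := by
    intro hD
    have hadj : G.Adj a.1 b.1 := by
      by_contra h'
      exact h (if_neg (fun h2 => h' h2.1))
    have hadj' : G.Adj c.1 d.1 := by
      by_contra h''
      exact h' (if_neg (fun h2 => h'' h2.1))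
    have hd : 0 < (ζ * b.1).im - (ζ * a.1).im := by linarith
    have hd' : 0 < (ζ * d.1).im - (ζ * c.1).im := by linarith
    set τ : ℝ := (t - (ζ * a.1).im) / ((ζ * b.1).im - (ζ * a.1).im) with hτ
    set σ : ℝ := (t - (ζ * c.1).im) / ((ζ * d.1).im - (ζ * c.1).im) with hσ
    have hτ0 : 0 < τ := div_pos (by linarith) hd
    have hτ1 : τ < 1 := by rw [hτ, div_lt_one hd]; linarith
    have hσ0 : 0 < σ := div_pos (by linarith) hd'
    have hσ1 : σ < 1 := by rw [hσ, div_lt_one hd']; linarith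
    have hτe : τ * ((ζ * b.1).im - (ζ * a.1).im) = t - (ζ * a.1).im := div_mul_cancel₀ _ hd.ne'
    have hσe : σ * ((ζ * d.1).im - (ζ * c.1).im) = t - (ζ * c.1).im := div_mul_cancel₀ _ hd'.ne'
    have hz : ((1 - τ : ℝ) : ℂ) * a.1 + (τ : ℂ) * b.1 = ((1 - σ : ℝ) : ℂ) * c.1 + (σ : ℂ) * d.1 := by
      refine eq_of_re_im hζ ?_ ?_
      · rw [re_comb, re_comb]
        unfold Dp at hD
        have h5 : (((ζ * c.1).re + σ * ((ζ * d.1).re - (ζ * c.1).re)) -
            ((ζ * a.1).re + τ * ((ζ * b.1).re - (ζ * a.1).re))) *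
            (((ζ * b.1).im - (ζ * a.1).im) * ((ζ * d.1).im - (ζ * c.1).im)) = 0 := by
          linear_combination hD + ((ζ * d.1).re - (ζ * c.1).re) * ((ζ * b.1).im - (ζ * a.1).im) * hσe
            - ((ζ * b.1).re - (ζ * a.1).re) * ((ζ * d.1).im - (ζ * c.1).im) * hτe
        rcases mul_eq_zero.1 h5 with h6 | h6
        · linarith
        · exact absurd h6 (mul_pos hd hd').ne'
      · rw [im_comb, im_comb, hτe, hσe]; ring
    have hs : s(a.1, b.1) ≠ s(c.1, d.1) := by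
      intro hs
      rw [Sym2.eq_iff] at hs
      rcases hs with ⟨e1, e2⟩ | ⟨e1, e2⟩
      · exact hne ⟨Subtype.ext e1, Subtype.ext e2⟩
      · rw [e1] at h1; linarith
    have hm1 : ((1 - τ : ℝ) : ℂ) * a.1 + (τ : ℂ) * b.1 ∈ segment ℝ a.1 b.1 :=
      ⟨1 - τ, τ, by linarith, hτ0.le, by ring, by rw [Complex.real_smul, Complex.real_smul]⟩
    have hm2 : ((1 - τ : ℝ) : ℂ) * a.1 + (τ : ℂ) * b.1 ∈ segment ℝ c.1 d.1 := by
      rw [hz]
      exact ⟨1 - σ, σ, by linarith, hσ0.le, by ring, by rw [Complex.real_smul, Complex.real_smul]⟩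
    have him : (ζ * (((1 - τ : ℝ) : ℂ) * a.1 + (τ : ℂ) * b.1)).im = t := by
      rw [im_comb, hτe]; ring
    rcases (G.edges_meet a.1 b.1 c.1 d.1 hadj hadj' hs _ hm1 hm2).1 with e | e
    · rw [e] at him; linarith
    · rw [e] at him; linarith

theorem W_ne {hζ : ζ ≠ 0} {hgen : ∀ a ∈ G.V, ∀ b ∈ G.V, (ζ * a).im = (ζ * b).im → a = b}
    (a b : {v : ℂ // v ∈ G.V}) : (cfg G ζ hζ hgen).W a b ≠ 0 ↔
      (G.Adj a.1 b.1 ∧ (ζ * a.1).im < (ζ * b.1).im) := by
  constructor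
  · intro h
    by_contra h'
    exact h (if_neg h')
  · intro h h0
    have h1 : (cfg G ζ hζ hgen).W a b = ‖b.1 - a.1‖⁻¹ := if_pos h
    rw [h1] at h0
    have h2 : b.1 - a.1 ≠ 0 := sub_ne_zero.2 (G.edge_ends _ _ h.1).2.2.symm
    exact (inv_ne_zero (norm_ne_zero_iff.2 h2)) h0

theorem W_val {hζ : ζ ≠ 0} {hgen : ∀ a ∈ G.V, ∀ b ∈ G.V, (ζ * a).im = (ζ * b).im → a = b}
    {a b : {v : ℂ // v ∈ G.V}} (h : (cfg G ζ hζ hgen).W a b ≠ 0) :
    (cfg G ζ hζ hgen).W a b = ‖b.1 - a.1‖⁻¹ := if_pos ((W_ne G ζ a b).1 h)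

/-- components of the rotated unit vector from `v` to `w` -/
def Ex (v w : ℂ) : ℝ := ‖w - v‖⁻¹ * ((ζ * w).re - (ζ * v).re)
/-- components of the rotated unit vector from `v` to `w` -/
def Ey (v w : ℂ) : ℝ := ‖w - v‖⁻¹ * ((ζ * w).im - (ζ * v).im)

section

variable {G ζ} {hζ : ζ ≠ 0} {hgen : ∀ a ∈ G.V, ∀ b ∈ G.V, (ζ * a).im = (ζ * b).im → a = b}

theorem ux_out {v w : {v : ℂ // v ∈ G.V}} (h : (cfg G ζ hζ hgen).W v w ≠ 0) :
    (cfg G ζ hζ hgen).ux v w = Ex ζ v.1 w.1 := by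
  unfold Cfg.ux; rw [W_val G ζ h]; rfl

theorem uy_out {v w : {v : ℂ // v ∈ G.V}} (h : (cfg G ζ hζ hgen).W v w ≠ 0) :
    (cfg G ζ hζ hgen).uy v w = Ey ζ v.1 w.1 := by
  unfold Cfg.uy; rw [W_val G ζ h]; rfl

theorem ux_in {v w : {v : ℂ // v ∈ G.V}} (h : (cfg G ζ hζ hgen).W w v ≠ 0) :
    (cfg G ζ hζ hgen).ux w v = - Ex ζ v.1 w.1 := by
  rw [ux_out h]; unfold Ex; rw [norm_sub_rev]; ring

theorem uy_in {v w : {v : ℂ // v ∈ G.V}} (h : (cfg G ζ hζ hgen).W w v ≠ 0) :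
    (cfg G ζ hζ hgen).uy w v = - Ey ζ v.1 w.1 := by
  rw [uy_out h]; unfold Ey; rw [norm_sub_rev]; ring

theorem diff_eq (f g : ℂ → ℂ → ℝ)
    (F : {v : ℂ // v ∈ G.V} → {v : ℂ // v ∈ G.V} → ℝ)
    (h1 : ∀ v w, (cfg G ζ hζ hgen).W v w ≠ 0 → F v w = f v.1 w.1)
    (h2 : ∀ v w, (cfg G ζ hζ hgen).W w v ≠ 0 → F w v = g v.1 w.1)
    (h3 : ∀ v w, (cfg G ζ hζ hgen).W v w = 0 → F v w = 0)
    (c : ℝ) (hfg : ∀ v w, c * g v w = f v w)
    (v : {v : ℂ // v ∈ G.V}) :
    (∑ w, F v w) + c * ∑ w, F w v = ∑ w ∈ G.neighbors v.1, f v.1 w := by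
  rw [Finset.mul_sum, ← Finset.sum_add_distrib]
  have : ∀ w : {v : ℂ // v ∈ G.V}, F v w + c * F w v =
      if G.Adj v.1 w.1 then f v.1 w.1 else 0 := by
    intro w
    by_cases hadj : G.Adj v.1 w.1
    · rw [if_pos hadj]
      have hne : (ζ * v.1).im ≠ (ζ * w.1).im := fun h =>
        (G.edge_ends _ _ hadj).2.2 (hgen _ v.2 _ w.2 h)
      rcases lt_or_gt_of_ne hne with hlt | hlt
      · have hw : (cfg G ζ hζ hgen).W v w ≠ 0 := (W_ne G ζ v w).2 ⟨hadj, hlt⟩
        have hw' : (cfg G ζ hζ hgen).W w v = 0 := by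
          by_contra h
          exact absurd ((W_ne G ζ w v).1 h).2 (not_lt.2 hlt.le)
        rw [h1 v w hw, h3 w v hw']; ring
      · have hw : (cfg G ζ hζ hgen).W w v ≠ 0 := (W_ne G ζ w v).2 ⟨G.symm _ _ hadj, hlt⟩
        have hw' : (cfg G ζ hζ hgen).W v w = 0 := by
          by_contra h
          exact absurd ((W_ne G ζ v w).1 h).2 (not_lt.2 hlt.le)
        rw [h2 v w hw, h3 v w hw', hfg]; ring
    · rw [if_neg hadj]
      have hw : (cfg G ζ hζ hgen).W v w = 0 := by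
        by_contra h
        exact hadj ((W_ne G ζ v w).1 h).1
      have hw' : (cfg G ζ hζ hgen).W w v = 0 := by
        by_contra h
        exact hadj (G.symm _ _ ((W_ne G ζ w v).1 h).1)
      rw [h3 v w hw, h3 w v hw']; ring
  simp only [this]
  rw [Finset.sum_coe_sort G.V (fun w => if G.Adj v.1 w then f v.1 w else 0)]
  unfold GeodesicNet.neighbors
  rw [Finset.sum_filter]

theorem Dx_eq (v : {v : ℂ // v ∈ G.V}) :
    (cfg G ζ hζ hgen).Dx v = (ζ * G.imb v.1).re := by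
  have h := diff_eq (G := G) (ζ := ζ) (hζ := hζ) (hgen := hgen) (Ex ζ) (fun v w => - Ex ζ v w)
    (cfg G ζ hζ hgen).ux (fun v w h => ux_out h) (fun v w h => ux_in h)
    (fun v w h => by unfold Cfg.ux; rw [h]; ring) (-1) (fun v w => by ring) v
  have e : (cfg G ζ hζ hgen).Dx v = (∑ w, (cfg G ζ hζ hgen).ux v w) + (-1) *
      ∑ w, (cfg G ζ hζ hgen).ux w v := by unfold Cfg.Dx Cfg.Ox Cfg.Ix; ring
  rw [e, h]
  unfold GeodesicNet.imb
  rw [Finset.mul_sum, Complex.re_sum]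
  refine Finset.sum_congr rfl fun w _ => ?_
  have : ζ * ((w - v.1) / (‖w - v.1‖ : ℂ)) = ((‖w - v.1‖⁻¹ : ℝ) : ℂ) * (ζ * w - ζ * v.1) := by
    push_cast; rw [div_eq_mul_inv]; ring
  rw [this, Complex.re_ofReal_mul, Complex.sub_re]
  rfl

theorem Dy_eq (v : {v : ℂ // v ∈ G.V}) :
    (cfg G ζ hζ hgen).Dy v = (ζ * G.imb v.1).im := by
  have h := diff_eq (G := G) (ζ := ζ) (hζ := hζ) (hgen := hgen) (Ey ζ) (fun v w => - Ey ζ v w)
    (cfg G ζ hζ hgen).uy (fun v w h => uy_out h) (fun v w h => uy_in h)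
    (fun v w h => by unfold Cfg.uy; rw [h]; ring) (-1) (fun v w => by ring) v
  have e : (cfg G ζ hζ hgen).Dy v = (∑ w, (cfg G ζ hζ hgen).uy v w) + (-1) *
      ∑ w, (cfg G ζ hζ hgen).uy w v := by unfold Cfg.Dy Cfg.Oy Cfg.Iy; ring
  rw [e, h]
  unfold GeodesicNet.imb
  rw [Finset.mul_sum, Complex.im_sum]
  refine Finset.sum_congr rfl fun w _ => ?_
  have : ζ * ((w - v.1) / (‖w - v.1‖ : ℂ)) = ((‖w - v.1‖⁻¹ : ℝ) : ℂ) * (ζ * w - ζ * v.1) := by
    push_cast; rw [div_eq_mul_inv]; ring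
  rw [this, Complex.im_ofReal_mul, Complex.sub_im]
  rfl

theorem card_eq (v : {v : ℂ // v ∈ G.V}) :
    (Finset.univ.filter (fun b => (cfg G ζ hζ hgen).W v b ≠ 0)).card +
      (Finset.univ.filter (fun a => (cfg G ζ hζ hgen).W a v ≠ 0)).card =
      (G.neighbors v.1).card := by
  have h := diff_eq (G := G) (ζ := ζ) (hζ := hζ) (hgen := hgen) (fun _ _ => 1) (fun _ _ => 1)
    (fun v w => if (cfg G ζ hζ hgen).W v w ≠ 0 then (1:ℝ) else 0) (fun v w h => if_pos h)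
    (fun v w h => if_pos h) (fun v w h => if_neg (by rw [h]; simp)) 1 (fun v w => by ring) v
  simp only [one_mul, Finset.sum_boole, Finset.sum_const, nsmul_eq_mul, mul_one] at h
  exact_mod_cast h

theorem unit (hn : ‖ζ‖ = 1) (a b : {v : ℂ // v ∈ G.V}) (h : (cfg G ζ hζ hgen).W a b ≠ 0) :
    (cfg G ζ hζ hgen).ux a b ^ 2 + (cfg G ζ hζ hgen).uy a b ^ 2 = 1 := by
  rw [ux_out h, uy_out h]
  unfold Ex Ey
  have h2 : b.1 - a.1 ≠ 0 := sub_ne_zero.2 (G.edge_ends _ _ ((W_ne G ζ a b).1 h).1).2.2.symm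
  have h3 : 0 < ‖b.1 - a.1‖ := norm_pos_iff.2 h2
  have h4 : ((ζ * b.1).re - (ζ * a.1).re) ^ 2 + ((ζ * b.1).im - (ζ * a.1).im) ^ 2 =
      ‖b.1 - a.1‖ ^ 2 := by
    have : ‖ζ * (b.1 - a.1)‖ ^ 2 = ‖b.1 - a.1‖ ^ 2 := by rw [norm_mul, hn, one_mul]
    rw [← this, Complex.sq_norm, Complex.normSq_apply, mul_sub, Complex.sub_re, Complex.sub_im]
    ring
  have h5 : (‖b.1 - a.1‖⁻¹ * ((ζ * b.1).re - (ζ * a.1).re)) ^ 2 +
      (‖b.1 - a.1‖⁻¹ * ((ζ * b.1).im - (ζ * a.1).im)) ^ 2 =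
      (‖b.1 - a.1‖⁻¹) ^ 2 * (((ζ * b.1).re - (ζ * a.1).re) ^ 2 +
        ((ζ * b.1).im - (ζ * a.1).im) ^ 2) := by ring
  rw [h5, h4]
  field_simp

theorem cross_eq (hn : ‖ζ‖ = 1) (v w w' : ℂ) :
    |Ex ζ v w * Ey ζ v w' - Ey ζ v w * Ex ζ v w'| = absSin v w w' := by
  have h1 : ζ.re ^ 2 + ζ.im ^ 2 = 1 := by
    have : ‖ζ‖ ^ 2 = 1 := by rw [hn]; norm_num
    rw [Complex.sq_norm, Complex.normSq_apply] at this
    linarith
  have h2 : Ex ζ v w * Ey ζ v w' - Ey ζ v w * Ex ζ v w' =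
      (‖w - v‖⁻¹ * ‖w' - v‖⁻¹) * ((starRingEnd ℂ) (w - v) * (w' - v)).im := by
    unfold Ex Ey
    simp only [Complex.mul_re, Complex.mul_im, Complex.sub_re, Complex.sub_im, Complex.conj_re,
      Complex.conj_im]
    linear_combination (‖w - v‖⁻¹ * ‖w' - v‖⁻¹) * ((w.re - v.re) * (w'.im - v.im) -
      (w.im - v.im) * (w'.re - v.re)) * h1
  rw [h2, abs_mul, abs_of_nonneg (by positivity)]
  unfold absSin
  rw [div_eq_mul_inv, mul_inv]; ring

theorem T_le (hn : ‖ζ‖ = 1) :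
    (cfg G ζ hζ hgen).Tx ≤ G.totalImbalance ∧ (cfg G ζ hζ hgen).Ty ≤ G.totalImbalance := by
  have hx : (cfg G ζ hζ hgen).Tx ≤ G.totalImbalance := by
    unfold Cfg.Tx GeodesicNet.totalImbalance
    rw [← Finset.sum_coe_sort G.V (fun v => ‖G.imb v‖)]
    refine Finset.sum_le_sum fun v _ => ?_
    rw [Dx_eq]
    refine (Complex.abs_re_le_norm _).trans ?_
    rw [norm_mul, hn, one_mul]
  have hy : (cfg G ζ hζ hgen).Ty ≤ G.totalImbalance := by
    unfold Cfg.Ty GeodesicNet.totalImbalance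
    rw [← Finset.sum_coe_sort G.V (fun v => ‖G.imb v‖)]
    refine Finset.sum_le_sum fun v _ => ?_
    rw [Dy_eq]
    refine (Complex.abs_im_le_norm _).trans ?_
    rw [norm_mul, hn, one_mul]
  exact ⟨hx, hy⟩

theorem sum_J_bound (hn : ‖ζ‖ = 1) :
    ∑ v, (cfg G ζ hζ hgen).J v ≤ 3 * G.totalImbalance ^ 2 := by
  obtain ⟨hx, hy⟩ := T_le (hζ := hζ) (hgen := hgen) hn
  have hy0 : 0 ≤ (cfg G ζ hζ hgen).Ty := Finset.sum_nonneg fun _ _ => abs_nonneg _
  have hI0 : 0 ≤ G.totalImbalance := Finset.sum_nonneg fun _ _ => norm_nonneg _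
  refine ((cfg G ζ hζ hgen).sum_J_le).trans ?_
  have := mul_le_mul hx hy hy0 hI0
  nlinarith

theorem count (hn : ‖ζ‖ = 1) (S : Finset ℂ) (hS : S ⊆ G.V) (δ : ℝ)
    (h : ∀ v : {v : ℂ // v ∈ G.V}, v.1 ∈ S → δ ≤ (cfg G ζ hζ hgen).J v) :
    δ * (S.card : ℝ) ≤ 3 * G.totalImbalance ^ 2 := by
  refine le_trans ?_ (sum_J_bound (hζ := hζ) (hgen := hgen) hn)
  have e : δ * (S.card : ℝ) = ∑ v ∈ G.V, if v ∈ S then δ else 0 := by
    rw [← Finset.sum_filter, Finset.filter_mem_eq_inter, Finset.inter_eq_right.2 hS]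
    simp [mul_comm]
  rw [e, ← Finset.sum_coe_sort G.V (fun v => if v ∈ S then δ else 0)]
  refine Finset.sum_le_sum fun v _ => ?_
  split_ifs with h1
  · exact h v h1
  · exact (cfg G ζ hζ hgen).J_nonneg v

end

theorem oddOrWide_le (G : GeodesicNet) (δ : ℝ) (hδ : δ ≤ 1 / 2) :
    δ * ((G.oddOrWide δ).card : ℝ) ≤ 3 * G.totalImbalance ^ 2 := by
  obtain ⟨ζ, hn, hgen⟩ := exists_generic G.V
  have hζ : ζ ≠ 0 := by rintro rfl; simp at hn
  refine count (hζ := hζ) (hgen := hgen) hn (G.oddOrWide δ) (Finset.filter_subset _ _) δ ?_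
  intro v hv
  obtain ⟨-, h1, h2⟩ := Finset.mem_filter.1 hv
  have hx : (cfg G ζ hζ hgen).Dx v = 0 := by rw [Dx_eq, h1]; simp
  have hy : (cfg G ζ hζ hgen).Dy v = 0 := by rw [Dy_eq, h1]; simp
  rcases h2 with h2 | ⟨w, hw, w', hw', hs⟩
  · refine hδ.trans ((cfg G ζ hζ hgen).half (unit hn) hx hy ?_)
    have h3 := card_eq (hζ := hζ) (hgen := hgen) v
    rw [← h3] at h2
    convert h2
  · refine hs.trans ?_
    obtain ⟨hwV, hwA⟩ := Finset.mem_filter.1 hw
    obtain ⟨hwV', hwA'⟩ := Finset.mem_filter.1 hw'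
    rw [← cross_eq hn]
    have key : ∀ u : {v : ℂ // v ∈ G.V}, G.Adj v.1 u.1 →
        (cfg G ζ hζ hgen).W v u ≠ 0 ∨ (cfg G ζ hζ hgen).W u v ≠ 0 := by
      intro u hu
      have hne : (ζ * v.1).im ≠ (ζ * u.1).im := fun h =>
        (G.edge_ends _ _ hu).2.2 (hgen _ v.2 _ u.2 h)
      rcases lt_or_gt_of_ne hne with hlt | hlt
      · exact Or.inl ((W_ne G ζ v u).2 ⟨hu, hlt⟩)
      · exact Or.inr ((W_ne G ζ u v).2 ⟨G.symm _ _ hu, hlt⟩)
    rcases key ⟨w, hwV⟩ hwA with a1 | a1 <;> rcases key ⟨w', hwV'⟩ hwA' with a2 | a2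
    · refine le_trans (le_of_eq ?_) ((cfg G ζ hζ hgen).oo (v := v) (b := ⟨w, hwV⟩) (d := ⟨w', hwV'⟩))
      unfold Cfg.K
      rw [ux_out a1, uy_out a1, ux_out a2, uy_out a2]
    · refine le_trans (le_of_eq ?_) ((cfg G ζ hζ hgen).oi (v := v) (b := ⟨w, hwV⟩)
        (c := ⟨w', hwV'⟩) hx hy a1 a2)
      unfold Cfg.K
      rw [ux_out a1, uy_out a1, ux_in a2, uy_in a2, ← abs_neg]
      congr 1; ring
    · refine le_trans (le_of_eq ?_) ((cfg G ζ hζ hgen).oi (v := v) (b := ⟨w', hwV'⟩)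
        (c := ⟨w, hwV⟩) hx hy a2 a1)
      unfold Cfg.K
      rw [ux_out a2, uy_out a2, ux_in a1, uy_in a1]
      congr 1; ring
    · refine le_trans (le_of_eq ?_) ((cfg G ζ hζ hgen).ii (v := v) (a := ⟨w, hwV⟩) (c := ⟨w', hwV'⟩))
      unfold Cfg.K
      rw [ux_in a1, uy_in a1, ux_in a2, uy_in a2]
      congr 1; ring

theorem degree_le (G : GeodesicNet) (v : ℂ) (hv : v ∈ G.V) :
    ((G.neighbors v).card : ℝ) ≤ 4 * G.totalImbalance := by
  obtain ⟨ζ, hn, hgen⟩ := exists_generic G.V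
  have hζ : ζ ≠ 0 := by rintro rfl; simp at hn
  have h := (cfg G ζ hζ hgen).deg_le (unit hn) ⟨v, hv⟩
  have h3 := card_eq (hζ := hζ) (hgen := hgen) ⟨v, hv⟩
  obtain ⟨hx, hy⟩ := T_le (hζ := hζ) (hgen := hgen) hn
  rw [← h3]
  push_cast
  have h4 : 2 * (cfg G ζ hζ hgen).Tx + 2 * (cfg G ζ hζ hgen).Ty ≤ 4 * G.totalImbalance := by
    linarith
  refine le_trans (le_of_eq ?_) (h.trans h4)
  congr 2

/-! ### crossings -/

/-- unit vector from `v` to `w` -/
def dir (v w : ℂ) : ℂ := (w - v) / (‖w - v‖ : ℂ)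

theorem dir_norm {v w : ℂ} (h : v ≠ w) : ‖dir v w‖ = 1 := by
  have : ‖w - v‖ ≠ 0 := norm_ne_zero_iff.2 (sub_ne_zero.2 h.symm)
  unfold dir
  rw [norm_div, Complex.norm_real, norm_norm, div_self this]

theorem eq_add_dir {v w : ℂ} (h : v ≠ w) : w = v + (‖w - v‖ : ℂ) * dir v w := by
  have : (‖w - v‖ : ℂ) ≠ 0 := by
    rw [Ne, Complex.ofReal_eq_zero]
    exact norm_ne_zero_iff.2 (sub_ne_zero.2 h.symm)
  unfold dir
  field_simp
  ring

theorem dir_comm (v w : ℂ) : dir w v = - dir v w := by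
  unfold dir; rw [norm_sub_rev]; ring

theorem dir_of_eq {v w e : ℂ} {r : ℝ} (hr : 0 < r) (he : ‖e‖ = 1) (h : w = v + (r : ℂ) * e) :
    dir v w = e := by
  have h1 : w - v = (r : ℂ) * e := by rw [h]; ring
  unfold dir
  rw [h1, norm_mul, he, mul_one, Complex.norm_real, Real.norm_of_nonneg hr.le]
  have : (r : ℂ) ≠ 0 := by exact_mod_cast hr.ne'
  field_simp

theorem dir_inj (G : GeodesicNet) {v w w' : ℂ} (h : G.Adj v w) (h' : G.Adj v w')
    (hd : dir v w = dir v w') : w = w' := by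
  have hne := (G.edge_ends _ _ h).2.2
  have hne' := (G.edge_ends _ _ h').2.2
  have key : ∀ w w' : ℂ, G.Adj v w → G.Adj v w' → dir v w = dir v w' → ‖w - v‖ < ‖w' - v‖ → False := by
    intro w w' h h' hd hlt
    have hne := (G.edge_ends _ _ h).2.2
    have hne' := (G.edge_ends _ _ h').2.2
    have hr : 0 < ‖w - v‖ := norm_pos_iff.2 (sub_ne_zero.2 hne.symm)
    have hr' : 0 < ‖w' - v‖ := norm_pos_iff.2 (sub_ne_zero.2 hne'.symm)
    refine G.no_vertex_inside v w' h' w (G.edge_ends _ _ h).2.1 ?_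
    refine ⟨1 - ‖w - v‖ / ‖w' - v‖, ‖w - v‖ / ‖w' - v‖, ?_, by positivity, by ring, ?_⟩
    · rw [sub_pos, div_lt_one hr']; exact hlt
    · rw [Complex.real_smul, Complex.real_smul]
      have e1 := eq_add_dir hne
      have e2 := eq_add_dir hne'
      rw [hd] at e1
      have hr'' : (‖w' - v‖ : ℂ) ≠ 0 := by exact_mod_cast hr'.ne'
      have e3 : w' - v = (‖w' - v‖ : ℂ) * dir v w' := by linear_combination e2
      have e4 : ((‖w - v‖ / ‖w' - v‖ : ℝ) : ℂ) * (w' - v) = (‖w - v‖ : ℂ) * dir v w' := by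
        calc ((‖w - v‖ / ‖w' - v‖ : ℝ) : ℂ) * (w' - v) =
            ((‖w - v‖ / ‖w' - v‖ : ℝ) : ℂ) * ((‖w' - v‖ : ℂ) * dir v w') := by rw [← e3]
          _ = (‖w - v‖ : ℂ) * dir v w' := by push_cast; field_simp
      push_cast at e4 ⊢
      linear_combination e4 - e1
  rcases lt_trichotomy ‖w - v‖ ‖w' - v‖ with hlt | heq | hlt
  · exact (key w w' h h' hd hlt).elim
  · have e1 := eq_add_dir hne
    have e2 := eq_add_dir hne'
    rw [e1, e2, hd, heq]
  · exact (key w' w h' h hd.symm hlt).elim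

theorem four_unit {a b c d : ℂ} (ha : ‖a‖ = 1) (hb : ‖b‖ = 1) (hc : ‖c‖ = 1) (hd : ‖d‖ = 1)
    (h : a + b + c + d = 0) : b = -a ∨ c = -a ∨ d = -a := by
  have hconj : ∀ z : ℂ, ‖z‖ = 1 → (starRingEnd ℂ) z * z = 1 := by
    intro z hz
    rw [Complex.conj_mul', hz]; simp
  have h' : (starRingEnd ℂ) a + (starRingEnd ℂ) b + (starRingEnd ℂ) c + (starRingEnd ℂ) d = 0 := by
    rw [← map_add, ← map_add, ← map_add, h, map_zero]
  have key : (b + a) * ((c + a) * (d + a)) = 0 := by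
    have e : (b + a) * ((c + a) * (d + a)) = a ^ 2 * (a + b + c + d) +
        (a * b * c * d) * ((starRingEnd ℂ) a + (starRingEnd ℂ) b + (starRingEnd ℂ) c +
          (starRingEnd ℂ) d) := by
      linear_combination (-(b * c * d)) * hconj a ha - (a * c * d) * hconj b hb -
        (a * b * d) * hconj c hc - (a * b * c) * hconj d hd
    rw [e, h, h']; ring
  rcases mul_eq_zero.1 key with h1 | h1
  · left; linear_combination h1
  · rcases mul_eq_zero.1 h1 with h2 | h2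
    · right; left; linear_combination h2
    · right; right; linear_combination h2

theorem antipodal (G : GeodesicNet) {v : ℂ} (hv : v ∈ G.crossings) {w : ℂ}
    (hw : w ∈ G.neighbors v) : ∃ w' ∈ G.neighbors v, dir v w' = - dir v w := by
  obtain ⟨-, h0, h4⟩ := Finset.mem_filter.1 hv
  have hcard : ((G.neighbors v).erase w).card = 3 := by rw [Finset.card_erase_of_mem hw, h4]
  obtain ⟨x, y, z, hxy, hxz, hyz, hset⟩ := Finset.card_eq_three.1 hcard
  have hnb : ∀ u ∈ G.neighbors v, ‖dir v u‖ = 1 := fun u hu =>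
    dir_norm (G.edge_ends _ _ (Finset.mem_filter.1 hu).2).2.2
  have hmem : ∀ u ∈ ({x, y, z} : Finset ℂ), u ∈ G.neighbors v := fun u hu => by
    rw [← hset] at hu; exact Finset.mem_of_mem_erase hu
  have hx := hmem x (by simp)
  have hy := hmem y (by simp)
  have hz := hmem z (by simp)
  have hsum : dir v w + dir v x + dir v y + dir v z = 0 := by
    have e : G.imb v = ∑ u ∈ G.neighbors v, dir v u := rfl
    rw [← Finset.add_sum_erase _ _ hw, hset, Finset.sum_insert (by simp [hxy, hxz]),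
      Finset.sum_insert (by simp [hyz]), Finset.sum_singleton] at e
    rw [← h0, e]; ring
  rcases four_unit (hnb w hw) (hnb x hx) (hnb y hy) (hnb z hz) hsum with h | h | h
  · exact ⟨x, hx, h⟩
  · exact ⟨y, hy, h⟩
  · exact ⟨z, hz, h⟩

theorem ray_end (G : GeodesicNet) {c w : ℂ} (hc : c ∈ G.crossings) (hw : w ∈ G.neighbors c) :
    ∃ b a : ℂ, b ∈ G.V ∧ b ∉ G.crossings ∧ G.Adj b a ∧ dir b a = - dir c w ∧
      ∃ s : ℝ, c = b + (s : ℂ) * dir b a := by
  have hwA : G.Adj c w := (Finset.mem_filter.1 hw).2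
  have hcw := (G.edge_ends _ _ hwA).2.2
  have he : ‖dir c w‖ = 1 := dir_norm hcw
  set e := dir c w with hedef
  let S : Finset ℂ := G.V.filter (fun b => (∃ s : ℝ, 0 < s ∧ b = c + (s : ℂ) * e) ∧
    ∃ a, G.Adj b a ∧ dir b a = - e)
  have hS : S.Nonempty := by
    refine ⟨w, Finset.mem_filter.2 ⟨(G.edge_ends _ _ hwA).2.1, ?_, c, G.symm _ _ hwA, ?_⟩⟩
    · exact ⟨‖w - c‖, norm_pos_iff.2 (sub_ne_zero.2 hcw.symm), eq_add_dir hcw⟩
    · rw [dir_comm]
  obtain ⟨b, hb, hmax⟩ := Finset.exists_max_image S (fun b => ‖b - c‖) hS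
  obtain ⟨hbV, ⟨s, hs, hbs⟩, a, hba, hda⟩ := Finset.mem_filter.1 hb
  refine ⟨b, a, hbV, ?_, hba, hda, s, ?_⟩
  · intro hbX
    obtain ⟨a', ha', hd'⟩ := antipodal G hbX
      (Finset.mem_filter.2 ⟨(G.edge_ends _ _ hba).2.1, hba⟩ : a ∈ G.neighbors b)
    rw [hda, neg_neg] at hd'
    have hba' : G.Adj b a' := (Finset.mem_filter.1 ha').2
    have hne := (G.edge_ends _ _ hba').2.2
    have hr : 0 < ‖a' - b‖ := norm_pos_iff.2 (sub_ne_zero.2 hne.symm)
    have e1 := eq_add_dir hne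
    rw [hd'] at e1
    have e2 : a' = c + ((s + ‖a' - b‖ : ℝ) : ℂ) * e := by
      rw [hbs] at e1
      push_cast
      rw [hbs]
      linear_combination e1
    have hmem : a' ∈ S := by
      refine Finset.mem_filter.2 ⟨(G.edge_ends _ _ hba').2.1, ⟨s + ‖a' - b‖, by linarith, e2⟩,
        b, G.symm _ _ hba', ?_⟩
      rw [dir_comm, hd']
    have h1 := hmax a' hmem
    have h2 : ‖a' - c‖ = s + ‖a' - b‖ := by
      have : a' - c = ((s + ‖a' - b‖ : ℝ) : ℂ) * e := by linear_combination e2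
      rw [this, norm_mul, he, mul_one, Complex.norm_real, Real.norm_of_nonneg (by linarith)]
    have h3 : ‖b - c‖ = s := by
      have : b - c = (s : ℂ) * e := by linear_combination hbs
      rw [this, norm_mul, he, mul_one, Complex.norm_real, Real.norm_of_nonneg hs.le]
    rw [h2, h3] at h1
    linarith
  · rw [hda]; linear_combination -hbs

/-- the edge ends at vertices which are not crossings -/
def ends (G : GeodesicNet) : Finset (ℂ × ℂ) :=
  (G.V ×ˢ G.V).filter (fun p => p.1 ∉ G.crossings ∧ G.Adj p.1 p.2)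

/-- `c` is the common point of the lines of two edge ends -/
def Meet (c : ℂ) (p : (ℂ × ℂ) × (ℂ × ℂ)) : Prop :=
  (∃ s : ℝ, c = p.1.1 + (s : ℂ) * dir p.1.1 p.1.2) ∧
  (∃ s : ℝ, c = p.2.1 + (s : ℂ) * dir p.2.1 p.2.2) ∧
  ((starRingEnd ℂ) (dir p.1.1 p.1.2) * dir p.2.1 p.2.2).im ≠ 0

theorem meet_unique {c c' : ℂ} {p : (ℂ × ℂ) × (ℂ × ℂ)} (h : Meet c p) (h' : Meet c' p) :
    c = c' := by
  obtain ⟨⟨s1, e1⟩, ⟨s2, e2⟩, hne⟩ := h
  obtain ⟨⟨t1, f1⟩, ⟨t2, f2⟩, -⟩ := h'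
  have g1 : c - c' = ((s1 - t1 : ℝ) : ℂ) * dir p.1.1 p.1.2 := by
    push_cast; linear_combination e1 - f1
  have g2 : c - c' = ((s2 - t2 : ℝ) : ℂ) * dir p.2.1 p.2.2 := by
    push_cast; linear_combination e2 - f2
  have g3 : ((starRingEnd ℂ) (dir p.1.1 p.1.2) * (c - c')).im = 0 := by
    rw [g1]
    have : (starRingEnd ℂ) (dir p.1.1 p.1.2) * (((s1 - t1 : ℝ) : ℂ) * dir p.1.1 p.1.2) =
        ((s1 - t1 : ℝ) : ℂ) * ((starRingEnd ℂ) (dir p.1.1 p.1.2) * dir p.1.1 p.1.2) := by ring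
    rw [this, Complex.conj_mul', Complex.im_ofReal_mul]
    norm_cast
    simp
  rw [g2] at g3
  have g4 : (starRingEnd ℂ) (dir p.1.1 p.1.2) * (((s2 - t2 : ℝ) : ℂ) * dir p.2.1 p.2.2) =
      ((s2 - t2 : ℝ) : ℂ) * ((starRingEnd ℂ) (dir p.1.1 p.1.2) * dir p.2.1 p.2.2) := by ring
  rw [g4, Complex.im_ofReal_mul] at g3
  rcases mul_eq_zero.1 g3 with g5 | g5
  · rw [g5] at g2
    simpa [sub_eq_zero] using g2
  · exact absurd g5 hne

theorem not_parallel {e f : ℂ} (he : ‖e‖ = 1) (hf : ‖f‖ = 1) (h1 : f ≠ e) (h2 : f ≠ -e) :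
    ((starRingEnd ℂ) e * f).im ≠ 0 := by
  intro h
  have hz : ‖(starRingEnd ℂ) e * f‖ = 1 := by rw [norm_mul, Complex.norm_conj, he, hf]; norm_num
  have hee : e * (starRingEnd ℂ) e = 1 := by rw [Complex.mul_conj', he]; simp
  set z := (starRingEnd ℂ) e * f with hzdef
  have hf' : f = e * z := by rw [hzdef]; linear_combination (-f) * hee
  have hzr : z = (z.re : ℂ) := by
    apply Complex.ext
    · simp
    · simp [h]
  rw [hzr, Complex.norm_real, Real.norm_eq_abs] at hz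
  rcases (abs_eq (by norm_num : (0:ℝ) ≤ 1)).1 hz with h3 | h3
  · apply h1
    rw [hf', hzr, h3]; simp
  · apply h2
    rw [hf', hzr, h3]; simp

theorem exists_meet (G : GeodesicNet) {c : ℂ} (hc : c ∈ G.crossings) :
    ∃ p ∈ ends G ×ˢ ends G, Meet c p := by
  have h4 := (Finset.mem_filter.1 hc).2.2
  have hne : (G.neighbors c).Nonempty := by
    rw [← Finset.card_pos, h4]; norm_num
  obtain ⟨w, hw⟩ := hne
  obtain ⟨w', hw', hd⟩ := antipodal G hc hw
  obtain ⟨u, hu, huw⟩ : ∃ u ∈ G.neighbors c, u ∉ ({w, w'} : Finset ℂ) := by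
    by_contra hcon
    push Not at hcon
    have : G.neighbors c ⊆ {w, w'} := hcon
    have h5 := Finset.card_le_card this
    have h6 : ({w, w'} : Finset ℂ).card ≤ 2 := Finset.card_le_two
    omega
  have hA : ∀ x ∈ G.neighbors c, G.Adj c x := fun x hx => (Finset.mem_filter.1 hx).2
  have hN : ∀ x ∈ G.neighbors c, ‖dir c x‖ = 1 := fun x hx =>
    dir_norm (G.edge_ends _ _ (hA x hx)).2.2
  have h1 : dir c u ≠ dir c w := fun h => huw (by
    rw [dir_inj G (hA u hu) (hA w hw) h]; simp)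
  have h2 : dir c u ≠ - dir c w := fun h => huw (by
    rw [← hd] at h
    rw [dir_inj G (hA u hu) (hA w' hw') h]; simp)
  obtain ⟨b, a, hbV, hbX, hba, hda, s, hs⟩ := ray_end G hc hw
  obtain ⟨b', a', hbV', hbX', hba', hda', s', hs'⟩ := ray_end G hc hu
  refine ⟨((b, a), (b', a')), ?_, ⟨s, hs⟩, ⟨s', hs'⟩, ?_⟩
  · rw [Finset.mem_product]
    constructor
    · exact Finset.mem_filter.2 ⟨Finset.mem_product.2 ⟨hbV, (G.edge_ends _ _ hba).2.1⟩, hbX, hba⟩
    · exact Finset.mem_filter.2 ⟨Finset.mem_product.2 ⟨hbV', (G.edge_ends _ _ hba').2.1⟩, hbX', hba'⟩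
  · change ((starRingEnd ℂ) (dir b a) * dir b' a').im ≠ 0
    rw [hda, hda', map_neg, neg_mul_neg]
    exact not_parallel (hN w hw) (hN u hu) h1 h2

theorem crossings_card_le (G : GeodesicNet) : G.crossings.card ≤ (ends G).card ^ 2 := by
  have h : ∀ c : ℂ, ∃ p : (ℂ × ℂ) × (ℂ × ℂ), c ∈ G.crossings → p ∈ ends G ×ˢ ends G ∧ Meet c p := by
    intro c
    by_cases hc : c ∈ G.crossings
    · obtain ⟨p, hp1, hp2⟩ := exists_meet G hc
      exact ⟨p, fun _ => ⟨hp1, hp2⟩⟩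
    · exact ⟨((0, 0), (0, 0)), fun h => absurd h hc⟩
  choose f hf using h
  have h1 : G.crossings.card ≤ (ends G ×ˢ ends G).card := by
    refine Finset.card_le_card_of_injOn f (fun c hc => (hf c hc).1) ?_
    intro c hc c' hc' hcc
    have m1 := (hf c hc).2
    have m2 := (hf c' hc').2
    rw [← hcc] at m2
    exact meet_unique m1 m2
  rw [Finset.card_product] at h1
  rw [sq]; exact h1

theorem ends_card_le (G : GeodesicNet) :
    ((ends G).card : ℝ) ≤ 4 * G.totalImbalance * ((G.V \ G.crossings).card : ℝ) := by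
  have h : (ends G).card = ∑ b ∈ G.V \ G.crossings, (G.neighbors b).card := by
    have h1 : ∀ p ∈ ends G, p.1 ∈ G.V \ G.crossings := by
      intro p hp
      obtain ⟨h2, h3, -⟩ := Finset.mem_filter.1 hp
      exact Finset.mem_sdiff.2 ⟨(Finset.mem_product.1 h2).1, h3⟩
    rw [Finset.card_eq_sum_card_fiberwise h1]
    refine Finset.sum_congr rfl fun b hb => ?_
    obtain ⟨hbV, hbX⟩ := Finset.mem_sdiff.1 hb
    refine Finset.card_bij (fun p _ => p.2) ?_ ?_ ?_
    · intro p hp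
      obtain ⟨h2, h3⟩ := Finset.mem_filter.1 hp
      obtain ⟨h4, -, h5⟩ := Finset.mem_filter.1 h2
      rw [← h3]
      exact Finset.mem_filter.2 ⟨(Finset.mem_product.1 h4).2, h5⟩
    · intro p hp q hq hpq
      have h3 := (Finset.mem_filter.1 hp).2
      have h4 := (Finset.mem_filter.1 hq).2
      exact Prod.ext (h3.trans h4.symm) hpq
    · intro w hw
      obtain ⟨h2, h3⟩ := Finset.mem_filter.1 hw
      exact ⟨(b, w), Finset.mem_filter.2 ⟨Finset.mem_filter.2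
        ⟨Finset.mem_product.2 ⟨hbV, h2⟩, hbX, h3⟩, rfl⟩, rfl⟩
  rw [h]
  push_cast
  refine (Finset.sum_le_sum fun b hb => degree_le G b (Finset.mem_sdiff.1 hb).1).trans ?_
  rw [Finset.sum_const, nsmul_eq_mul, mul_comm]

/-- Let `G` be a geodesic net with `n` unbalanced vertices and total imbalance `I`, let
`0 < δ ≤ 1/2` and let `E` be the number of its `δ`-flat balanced vertices of even degree at least
six. Then the number of balanced vertices is at most `A + (4 I (n + A)) ^ 2` with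
`A = 3 I ^ 2 / δ + E`. -/
theorem result (G : GeodesicNet) (hG : G.Proper) (δ : ℝ) (hδ : 0 < δ) (hδ' : δ ≤ 1 / 2) :
    (G.balanced.card : ℝ) ≤
      (3 * G.totalImbalance ^ 2 / δ + ((G.flat δ).card : ℝ)) +
        (4 * G.totalImbalance * ((G.unbalanced.card : ℝ) +
          (3 * G.totalImbalance ^ 2 / δ + ((G.flat δ).card : ℝ)))) ^ 2 := by
  have hI : 0 ≤ G.totalImbalance := Finset.sum_nonneg fun _ _ => norm_nonneg _
  have h1 : ((G.oddOrWide δ).card : ℝ) ≤ 3 * G.totalImbalance ^ 2 / δ := by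
    rw [le_div_iff₀ hδ, mul_comm]
    exact oddOrWide_le G δ hδ'
  have h2 : G.balanced \ G.crossings ⊆ G.oddOrWide δ ∪ G.flat δ := by
    intro v hv
    obtain ⟨hvb, hvc⟩ := Finset.mem_sdiff.1 hv
    obtain ⟨hvV, hv0⟩ := Finset.mem_filter.1 hvb
    have hdeg := hG.2 v hvV hv0
    have hne4 : (G.neighbors v).card ≠ 4 := fun h => hvc (Finset.mem_filter.2 ⟨hvV, hv0, h⟩)
    rw [Finset.mem_union]
    by_cases hodd : Odd (G.neighbors v).card
    · exact Or.inl (Finset.mem_filter.2 ⟨hvV, hv0, Or.inl hodd⟩)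
    · rw [Nat.not_odd_iff_even] at hodd
      by_cases hw : ∃ w ∈ G.neighbors v, ∃ w' ∈ G.neighbors v, δ ≤ absSin v w w'
      · exact Or.inl (Finset.mem_filter.2 ⟨hvV, hv0, Or.inr hw⟩)
      · push Not at hw
        refine Or.inr (Finset.mem_filter.2 ⟨hvV, hv0, hodd, ?_, hw⟩)
        obtain ⟨r, hr⟩ := hodd
        omega
  have h3 : ((G.balanced \ G.crossings).card : ℝ) ≤
      3 * G.totalImbalance ^ 2 / δ + ((G.flat δ).card : ℝ) := by
    have := (Finset.card_le_card h2).trans (Finset.card_union_le _ _)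
    have h4 : ((G.balanced \ G.crossings).card : ℝ) ≤
        ((G.oddOrWide δ).card : ℝ) + ((G.flat δ).card : ℝ) := by exact_mod_cast this
    linarith
  have h5 : G.V \ G.crossings ⊆ G.unbalanced ∪ (G.balanced \ G.crossings) := by
    intro v hv
    obtain ⟨hvV, hvc⟩ := Finset.mem_sdiff.1 hv
    rw [Finset.mem_union]
    by_cases h0 : G.imb v = 0
    · exact Or.inr (Finset.mem_sdiff.2 ⟨Finset.mem_filter.2 ⟨hvV, h0⟩, hvc⟩)
    · exact Or.inl (Finset.mem_filter.2 ⟨hvV, h0⟩)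
  have h6 : ((G.V \ G.crossings).card : ℝ) ≤ (G.unbalanced.card : ℝ) +
      (3 * G.totalImbalance ^ 2 / δ + ((G.flat δ).card : ℝ)) := by
    have := (Finset.card_le_card h5).trans (Finset.card_union_le _ _)
    have h7 : ((G.V \ G.crossings).card : ℝ) ≤
        (G.unbalanced.card : ℝ) + ((G.balanced \ G.crossings).card : ℝ) := by exact_mod_cast this
    linarith
  have h8 : (G.crossings.card : ℝ) ≤ (4 * G.totalImbalance * ((G.unbalanced.card : ℝ) +
      (3 * G.totalImbalance ^ 2 / δ + ((G.flat δ).card : ℝ)))) ^ 2 := by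
    have h9 : (G.crossings.card : ℝ) ≤ ((ends G).card : ℝ) ^ 2 := by
      exact_mod_cast crossings_card_le G
    refine h9.trans ?_
    have h10 : ((ends G).card : ℝ) ≤ 4 * G.totalImbalance * ((G.unbalanced.card : ℝ) +
        (3 * G.totalImbalance ^ 2 / δ + ((G.flat δ).card : ℝ))) :=
      (ends_card_le G).trans (mul_le_mul_of_nonneg_left h6 (by positivity))
    exact pow_le_pow_left₀ (by positivity) h10 2
  have h11 : (G.balanced.card : ℝ) ≤ ((G.balanced \ G.crossings).card : ℝ) +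
      (G.crossings.card : ℝ) := by
    have h12 : G.balanced ⊆ (G.balanced \ G.crossings) ∪ G.crossings := by
      intro v hv
      rw [Finset.mem_union]
      by_cases hc : v ∈ G.crossings
      · exact Or.inr hc
      · exact Or.inl (Finset.mem_sdiff.2 ⟨hv, hc⟩)
    have := (Finset.card_le_card h12).trans (Finset.card_union_le _ _)
    exact_mod_cast this
  linarith

end Pool.Agent.Results.MP_b48dd4_gt.FlatVertices
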